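import Mathlib

namespace Pool.Agent.Results.MP_784777_an.MinimalNoHarmonic
open Complex Metric Real InnerProductSpace Filter Topology

/-- subharmonic on the plane, values in `[-∞, ∞)`; the mean over a circle of an upper
semicontinuous function is the infimum of the means of its continuous majorants -/
def Subh (w : ℂ → EReal) : Prop := UpperSemicontinuous w ∧ (∀ z, w z ≠ ⊤) ∧
  ∀ (c : ℂ) (R : ℝ) (g : ℂ → ℝ), 0 < R → Continuous g → (∀ z ∈ sphere c R, w z ≤ g z) →
    w c ≤ (circleAverage g c R : ℝ)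

def U (ρ : ℝ) (w : ℂ → EReal) : Prop :=
  Subh w ∧ w 0 = 0 ∧ ∃ σ > 0, ∀ z, w z ≤ (σ * ‖z‖ ^ ρ : ℝ)

def Minimal (ρ : ℝ) (v : ℂ → EReal) : Prop :=
  ∀ ε > 0, ¬ ∃ w, U ρ w ∧ ∀ z, w z ≤ v z - (ε * ‖z‖ ^ ρ : ℝ)

noncomputable def v (z : ℂ) : ℝ := √(1 + ‖z‖ ^ 2) - 1

lemma cv : Continuous v := by unfold v; fun_prop

lemma sc (c u : ℂ) (hu : u ≠ 0) : 2 * v c < v (c + u) + v (c - u) := by
  have p : 0 < ‖u‖ ^ 2 := by positivity
  have e : ∀ z : ℂ, √(1 + ‖z‖ ^ 2) ^ 2 = 1 + ‖z‖ ^ 2 := fun z => sq_sqrt (by positivity)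
  have n : ∀ z : ℂ, 0 ≤ √(1 + ‖z‖ ^ 2) := fun z => sqrt_nonneg _
  have a := e (c + u)
  have b := e (c - u)
  have d := e c
  have na := n (c + u)
  have nb := n (c - u)
  simp only [v]
  generalize √(1 + ‖c + u‖ ^ 2) = A at *
  generalize √(1 + ‖c - u‖ ^ 2) = B at *
  generalize √(1 + ‖c‖ ^ 2) = C at *
  rw [norm_add_sq_real] at a
  rw [norm_sub_sq_real] at b
  have t := real_inner_mul_inner_self_le c u
  rw [real_inner_self_eq_norm_sq, real_inner_self_eq_norm_sq] at t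
  generalize inner ℝ c u = s at *
  have k : C ^ 2 - ‖u‖ ^ 2 < A * B := lt_of_le_of_lt (le_abs_self _) <| by
    refine abs_lt_of_sq_lt_sq ?_ (by positivity)
    rw [mul_pow, a, b, d]; nlinarith
  have : 2 * C < A + B := lt_of_le_of_lt (le_abs_self _) <|
    abs_lt_of_sq_lt_sq (by nlinarith) (by positivity)
  linarith

lemma sm (c : ℂ) (R : ℝ) (hR : 0 < R) : v c < circleAverage v c R := by
  have i : ∀ r, IntervalIntegrable (fun θ => v (circleMap c r θ)) MeasureTheory.volume 0 (2 * π) :=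
    fun r => (cv.comp (continuous_circleMap c r)).intervalIntegrable _ _
  have h := intervalIntegral.intervalIntegral_pos_of_pos_on
    (((i R).add (i (-R))).sub (intervalIntegrable_const (c := 2 * v c)))
    (fun θ _ => by
      have := sc c (R * exp (θ * I)) (mul_ne_zero (ofReal_ne_zero.2 hR.ne') (exp_ne_zero _))
      simp only [circleMap, ofReal_neg, neg_mul, ← sub_eq_add_neg]
      linarith) two_pi_pos
  rw [intervalIntegral.integral_sub ((i R).add (i (-R))) intervalIntegrable_const,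
    intervalIntegral.integral_add (i R) (i (-R))] at h
  have e := circleAverage_neg_radius (f := v) (c := c) (R := R)
  simp only [circleAverage, smul_eq_mul] at e ⊢
  rw [mul_left_cancel₀ (inv_ne_zero two_pi_pos.ne') e] at h
  rw [lt_inv_mul_iff₀ two_pi_pos]
  simp at h; linarith

theorem result : ∃ (ρ : ℝ) (v : ℂ → ℝ), 0 < ρ ∧ U ρ (fun z => v z) ∧ Minimal ρ (fun z => v z) ∧
    ∀ z, ¬ HarmonicAt v z := by
  have ci : ∀ {g : ℂ → ℝ} (c : ℂ) (R : ℝ), Continuous g → CircleIntegrable g c R :=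
    fun c R h => h.continuousOn.circleIntegrable'
  refine ⟨2, v, two_pos, ⟨⟨(continuous_coe_real_ereal.comp cv).upperSemicontinuous,
    fun z => EReal.coe_ne_top _, fun c R g hR hg h => ?_⟩, by simp [v], 1, one_pos, fun z => ?_⟩,
    fun ε hε ⟨w, ⟨⟨_, _, h⟩, h0, _⟩, hw⟩ => ?_, fun z h => ?_⟩
  · refine EReal.coe_le_coe_iff.2 ((sm c R hR).le.trans (circleAverage_mono (ci c R cv)
      (ci c R hg) fun z hz => EReal.coe_le_coe_iff.1 (h z (abs_of_pos hR ▸ hz))))
  · rw [EReal.coe_le_coe_iff, v, sub_le_iff_le_add, rpow_two]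
    exact sqrt_le_iff.2 ⟨by positivity, by nlinarith [sq_nonneg (‖z‖ ^ 2), sq_nonneg ‖z‖]⟩
  · have := h 0 (2 / ε) (fun _ => -(2 / ε)) (by positivity) continuous_const fun z hz => by
      refine (hw z).trans ?_
      rw [← EReal.coe_sub, EReal.coe_le_coe_iff, v, rpow_two, mem_sphere_zero_iff_norm.1 hz]
      have p : 0 < 2 / ε := by positivity
      have : √(1 + (2 / ε) ^ 2) ≤ 1 + 2 / ε := sqrt_le_iff.2 ⟨by positivity, by nlinarith⟩
      have e : ε * (2 / ε) ^ 2 = 2 * (2 / ε) := by field_simp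
      linarith
    rw [h0, circleAverage_const, ← EReal.coe_zero, EReal.coe_le_coe_iff] at this
    linarith [div_pos two_pos hε]
  · obtain ⟨R, hR, hb⟩ := nhds_basis_closedBall.mem_iff.1 h.eventually
    exact (sm z R hR).ne' (HarmonicOnNhd.circleAverage_eq fun y hy => hb (abs_of_pos hR ▸ hy))

end Pool.Agent.Results.MP_784777_an.MinimalNoHarmonic
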